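import Mathlib

/-!
# Counting the `k`-subsets of an interval with diameter at most `b`
-/

open Finset

namespace H68.BW

/-- The number of `k`-subsets of diameter at most `b` of an interval of `l + 1` integers. -/
def Wd (k b l : ℕ) : ℕ :=
  if l ≤ b then (l + 1).choose k else (b + 1).choose k + (l - b) * b.choose (k - 1)

/-- The `k`-subsets of `{x, ..., y}` with diameter at most `b`. -/
def ivl (k b x y : ℕ) : Finset (Finset ℕ) :=
  ((Finset.Icc x y).powersetCard k).filter fun X => ∀ u ∈ X, ∀ v ∈ X, v ≤ u + b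

theorem mem_ivl {k b x y : ℕ} {X : Finset ℕ} :
    X ∈ ivl k b x y ↔ ((∀ u ∈ X, x ≤ u ∧ u ≤ y) ∧ X.card = k) ∧ ∀ u ∈ X, ∀ v ∈ X, v ≤ u + b := by
  rw [ivl, Finset.mem_filter, Finset.mem_powersetCard]
  constructor
  · rintro ⟨⟨h1, h2⟩, h3⟩
    exact ⟨⟨fun u hu => Finset.mem_Icc.1 (h1 hu), h2⟩, h3⟩
  · rintro ⟨⟨h1, h2⟩, h3⟩
    exact ⟨⟨fun u hu => Finset.mem_Icc.2 (h1 u hu), h2⟩, h3⟩

theorem card_ivl_small (k b x l : ℕ) (h : l ≤ b) : (ivl k b x (x + l)).card = (l + 1).choose k := by
  rw [ivl, Finset.filter_true_of_mem, Finset.card_powersetCard, Nat.card_Icc]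
  · congr 1; omega
  · intro X hX u hu v hv
    rw [Finset.mem_powersetCard] at hX
    have h1 := Finset.mem_Icc.1 (hX.1 hu)
    have h2 := Finset.mem_Icc.1 (hX.1 hv)
    omega

theorem card_ivl_step (k b x l : ℕ) (hk : 1 ≤ k) (h : b ≤ l) :
    (ivl k b x (x + (l + 1))).card = (ivl k b (x + 1) (x + 1 + l)).card + b.choose (k - 1) := by
  have hsplit := Finset.card_filter_add_card_filter_not (s := ivl k b x (x + (l + 1)))
    (fun X => x ∉ X)
  rw [← hsplit]
  congr 1
  · congr 1
    ext X
    rw [Finset.mem_filter, mem_ivl, mem_ivl]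
    constructor
    · rintro ⟨⟨⟨h1, h2⟩, h3⟩, h4⟩
      refine ⟨⟨fun u hu => ?_, h2⟩, h3⟩
      have := h1 u hu
      have hne : u ≠ x := fun hh => h4 (hh ▸ hu)
      omega
    · rintro ⟨⟨h1, h2⟩, h3⟩
      refine ⟨⟨⟨fun u hu => ?_, h2⟩, h3⟩, fun hx => ?_⟩
      · have := h1 u hu
        omega
      · have := h1 x hx
        omega
  · have hc : b.choose (k - 1) = ((Finset.Icc (x + 1) (x + b)).powersetCard (k - 1)).card := by
      rw [Finset.card_powersetCard, Nat.card_Icc]
      congr 1; omega
    rw [hc]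
    refine Finset.card_bij' (fun X _ => X.erase x) (fun Y _ => insert x Y) ?_ ?_ ?_ ?_
    · intro X hX
      rw [Finset.mem_filter, mem_ivl, not_not] at hX
      obtain ⟨⟨⟨h1, h2⟩, h3⟩, h4⟩ := hX
      rw [Finset.mem_powersetCard, Finset.card_erase_of_mem h4, h2]
      refine ⟨fun u hu => ?_, rfl⟩
      rw [Finset.mem_erase] at hu
      have := h1 u hu.2
      have := h3 x h4 u hu.2
      rw [Finset.mem_Icc]
      have := hu.1
      omega
    · intro Y hY
      rw [Finset.mem_powersetCard] at hY
      have hx : x ∉ Y := fun hx => by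
        have := Finset.mem_Icc.1 (hY.1 hx)
        omega
      have hb : ∀ u ∈ insert x Y, x ≤ u ∧ u ≤ x + b := by
        intro u hu
        rcases Finset.mem_insert.1 hu with rfl | hu
        · omega
        · have := Finset.mem_Icc.1 (hY.1 hu)
          omega
      rw [Finset.mem_filter, mem_ivl, not_not]
      refine ⟨⟨⟨fun u hu => ?_, ?_⟩, fun u hu v hv => ?_⟩, Finset.mem_insert_self _ _⟩
      · have := hb u hu
        omega
      · rw [Finset.card_insert_of_notMem hx, hY.2]
        omega
      · have := hb u hu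
        have := hb v hv
        omega
    · intro X hX
      rw [Finset.mem_filter, not_not] at hX
      exact Finset.insert_erase hX.2
    · intro Y hY
      rw [Finset.mem_powersetCard] at hY
      have hx : x ∉ Y := fun hx => by
        have := Finset.mem_Icc.1 (hY.1 hx)
        omega
      exact Finset.erase_insert hx

theorem card_ivl (k b : ℕ) (hk : 1 ≤ k) (x l : ℕ) : (ivl k b x (x + l)).card = Wd k b l := by
  rcases le_or_gt l b with h | h
  · rw [card_ivl_small k b x l h, Wd, if_pos h]
  · obtain ⟨d, rfl⟩ := Nat.exists_eq_add_of_le h.le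
    clear h
    have key : ∀ d x, (ivl k b x (x + (b + d))).card = (b + 1).choose k + d * b.choose (k - 1) := by
      intro d
      induction d with
      | zero => intro x; rw [Nat.add_zero, card_ivl_small k b x b le_rfl]; ring
      | succ d ih =>
        intro x
        rw [show b + (d + 1) = b + d + 1 by ring, card_ivl_step k b x (b + d) hk (by omega), ih]
        ring
    rw [key, Wd]
    split_ifs with h
    · have : d = 0 := by omega
      subst this
      simp
    · congr 2; omega

theorem Wd_of_le {k b l : ℕ} (h : l ≤ b) : Wd k b l = (l + 1).choose k := by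
  rw [Wd, if_pos h]

theorem Wd_of_ge {k b l : ℕ} (h : b ≤ l) :
    Wd k b l = (b + 1).choose k + (l - b) * b.choose (k - 1) := by
  rw [Wd]
  split_ifs with h'
  · have : l = b := by omega
    subst this
    simp
  · rfl

end H68.BW
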