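import Mathlib

/-!
# Hall's theorem for intervals, and compressing injective labellings

* `H68.BW.interval_hall`: integer intervals `[l i, u i]` have distinct representatives as soon as,
  for all `s ≤ t`, at most `t + 1 - s` of them lie in `[s, t]`.
* `H68.BW.exists_equiv_fin`: an injective labelling `f : V → ℕ` of a finite type can be replaced by a
  bijection onto `Fin (card V)` without increasing differences.
-/

open Finset

namespace H68.BW

variable {ι : Type*} [DecidableEq ι]

theorem interval_card_le (l u : ι → ℕ) (hlu : ∀ i, l i ≤ u i)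
    (H : ∀ (T : Finset ι) (s t : ℕ), (∀ i ∈ T, s ≤ l i ∧ u i ≤ t) → T.Nonempty → T.card + s ≤ t + 1)
    (T : Finset ι) : T.card ≤ (T.biUnion fun i => Finset.Icc (l i) (u i)).card := by
  classical
  induction T using Finset.strongInduction with
  | H T ih =>
    rcases T.eq_empty_or_nonempty with rfl | hT
    · simp
    by_cases h : ∃ p, p ∉ (T.biUnion fun i => Finset.Icc (l i) (u i)) ∧ (∃ i ∈ T, u i < p) ∧
        (∃ i ∈ T, p < l i)
    · obtain ⟨p, hp, ⟨i0, hi0, hu0⟩, ⟨i1, hi1, hl1⟩⟩ := h
      have hsplit : ∀ i ∈ T, u i < p ∨ p < l i := by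
        intro i hi
        by_contra hcon
        push Not at hcon
        exact hp (Finset.mem_biUnion.2 ⟨i, hi, Finset.mem_Icc.2 ⟨hcon.2, hcon.1⟩⟩)
      set T1 := T.filter fun i => u i < p with hT1
      set T2 := T.filter fun i => ¬ u i < p with hT2
      have hc : T.card = T1.card + T2.card := by
        rw [hT1, hT2, Finset.card_filter_add_card_filter_not]
      have h1 : T1 ⊂ T := by
        refine Finset.filter_ssubset.2 ⟨i1, hi1, ?_⟩
        have := hlu i1
        omega
      have h2 : T2 ⊂ T := by
        refine Finset.filter_ssubset.2 ⟨i0, hi0, ?_⟩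
        simpa using hu0
      have hd : Disjoint (T1.biUnion fun i => Finset.Icc (l i) (u i))
          (T2.biUnion fun i => Finset.Icc (l i) (u i)) := by
        rw [Finset.disjoint_left]
        intro x hx1 hx2
        obtain ⟨i, hi, hxi⟩ := Finset.mem_biUnion.1 hx1
        obtain ⟨j, hj, hxj⟩ := Finset.mem_biUnion.1 hx2
        rw [Finset.mem_Icc] at hxi hxj
        have hi' := (Finset.mem_filter.1 hi).2
        have hj' := (Finset.mem_filter.1 hj)
        rcases hsplit j hj'.1 with h | h
        · exact hj'.2 h
        · omega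
      have hU : (T.biUnion fun i => Finset.Icc (l i) (u i)) =
          (T1.biUnion fun i => Finset.Icc (l i) (u i)) ∪
          (T2.biUnion fun i => Finset.Icc (l i) (u i)) := by
        rw [← Finset.union_biUnion]
        congr 1
        rw [hT1, hT2, Finset.filter_union_filter_not_eq]
      rw [hU, Finset.card_union_of_disjoint hd, hc]
      exact add_le_add (ih T1 h1) (ih T2 h2)
    · push Not at h
      obtain ⟨i0, hi0, hmin⟩ := Finset.exists_min_image T l hT
      obtain ⟨i1, hi1, hmax⟩ := Finset.exists_max_image T u hT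
      have hsub : Finset.Icc (l i0) (u i1) ⊆ T.biUnion fun i => Finset.Icc (l i) (u i) := by
        intro p hp
        rw [Finset.mem_Icc] at hp
        by_contra hcon
        have hn0 : ¬ (l i0 ≤ p ∧ p ≤ u i0) := fun hh =>
          hcon (Finset.mem_biUnion.2 ⟨i0, hi0, Finset.mem_Icc.2 hh⟩)
        have hn1 : ¬ (l i1 ≤ p ∧ p ≤ u i1) := fun hh =>
          hcon (Finset.mem_biUnion.2 ⟨i1, hi1, Finset.mem_Icc.2 hh⟩)
        have hu0 : u i0 < p := by
          by_contra hh
          exact hn0 ⟨hp.1, by omega⟩
        have hl1 : p < l i1 := by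
          by_contra hh
          exact hn1 ⟨by omega, hp.2⟩
        have := h p hcon ⟨i0, hi0, hu0⟩ i1 hi1
        omega
      have hle := Finset.card_le_card hsub
      rw [Nat.card_Icc] at hle
      have hH := H T (l i0) (u i1) (fun i hi => ⟨hmin i hi, hmax i hi⟩) hT
      omega

/-- Interval version of Hall's marriage theorem. -/
theorem interval_hall (l u : ι → ℕ) (hlu : ∀ i, l i ≤ u i)
    (H : ∀ (T : Finset ι) (s t : ℕ), (∀ i ∈ T, s ≤ l i ∧ u i ≤ t) → T.Nonempty → T.card + s ≤ t + 1) :
    ∃ f : ι → ℕ, Function.Injective f ∧ ∀ i, l i ≤ f i ∧ f i ≤ u i := by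
  have := (Finset.all_card_le_biUnion_card_iff_exists_injective
    (fun i => Finset.Icc (l i) (u i))).1 (fun T => interval_card_le l u hlu H T)
  obtain ⟨f, hf, hm⟩ := this
  exact ⟨f, hf, fun i => Finset.mem_Icc.1 (hm i)⟩

/-- Compression of an injective labelling to a numbering by `Fin (card V)`. -/
theorem exists_equiv_fin {V : Type*} [Fintype V] (f : V → ℕ) (hf : Function.Injective f) :
    ∃ e : V ≃ Fin (Fintype.card V), ∀ v w, f v ≤ f w →
      ((e w : ℕ) : ℤ) - ((e v : ℕ) : ℤ) ≤ (f w : ℤ) - (f v : ℤ) ∧ (e v : ℕ) ≤ (e w : ℕ) := by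
  classical
  let r : V → ℕ := fun v => (Finset.univ.filter fun z => f z < f v).card
  have hr : ∀ v, r v < Fintype.card V := by
    intro v
    apply Finset.card_lt_card
    refine Finset.filter_ssubset.2 ⟨v, Finset.mem_univ _, lt_irrefl _⟩
  have hadd : ∀ v w, f v ≤ f w → r w = r v + (Finset.univ.filter fun z => f v ≤ f z ∧ f z < f w).card := by
    intro v w h
    rw [← Finset.card_union_of_disjoint]
    · show (Finset.univ.filter fun z => f z < f w).card = _
      congr 1
      ext z
      simp only [Finset.mem_filter, Finset.mem_univ, true_and, Finset.mem_union]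
      omega
    · rw [Finset.disjoint_left]
      intro z hz hz'
      simp only [Finset.mem_filter, Finset.mem_univ, true_and] at hz hz'
      omega
  have hmid : ∀ v w, (Finset.univ.filter fun z => f v ≤ f z ∧ f z < f w).card ≤ f w - f v := by
    intro v w
    have : ((Finset.univ.filter fun z => f v ≤ f z ∧ f z < f w).image f) ⊆ Finset.Ico (f v) (f w) := by
      intro x hx
      obtain ⟨z, hz, rfl⟩ := Finset.mem_image.1 hx
      simpa using hz
    have h1 := Finset.card_le_card this
    rw [Finset.card_image_of_injective _ hf, Nat.card_Ico] at h1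
    exact h1
  have hlt : ∀ v w, f v < f w → r v < r w := by
    intro v w h
    rw [hadd v w h.le]
    have : 0 < (Finset.univ.filter fun z => f v ≤ f z ∧ f z < f w).card :=
      Finset.card_pos.2 ⟨v, by simp [h]⟩
    omega
  have hinj : Function.Injective (fun v => (⟨r v, hr v⟩ : Fin (Fintype.card V))) := by
    intro v w h
    have h' : r v = r w := by simpa using h
    apply hf
    rcases lt_trichotomy (f v) (f w) with hh | hh | hh
    · have := hlt v w hh; omega
    · exact hh
    · have := hlt w v hh; omega
  have hbij : Function.Bijective (fun v => (⟨r v, hr v⟩ : Fin (Fintype.card V))) :=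
    (Fintype.bijective_iff_injective_and_card _).2 ⟨hinj, by simp⟩
  refine ⟨Equiv.ofBijective _ hbij, fun v w h => ?_⟩
  have h1 := hadd v w h
  have h2 := hmid v w
  simp only [Equiv.ofBijective_apply]
  constructor
  · push_cast [h1]
    omega
  · omega

end H68.BW
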