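import Mathlib

/-!
# The potential of the cyclic difference constraints
-/

namespace H68.BW

theorem choose_incr (k : ℕ) {s s' : ℕ} (h : s ≤ s') (m : ℕ) :
    (s + m).choose k + s'.choose k ≤ (s' + m).choose k + s.choose k := by
  induction m with
  | zero => simp [add_comm]
  | succ m ih =>
    cases k with
    | zero => simp
    | succ k =>
      have h1 : (s + (m + 1)).choose (k + 1) = (s + m).choose k + (s + m).choose (k + 1) :=
        Nat.choose_succ_succ _ _
      have h2 : (s' + (m + 1)).choose (k + 1) = (s' + m).choose k + (s' + m).choose (k + 1) :=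
        Nat.choose_succ_succ _ _
      have h3 : (s + m).choose k ≤ (s' + m).choose k := Nat.choose_le_choose k (by omega)
      omega

/-- The excess function. -/
noncomputable def phi (k b δ : ℕ) : ℝ :=
  ((b - δ + 1).choose k : ℝ) - ((b + 1).choose k : ℝ) + δ * (b.choose (k - 1) : ℝ)

theorem phi_zero (k b : ℕ) : phi k b 0 = 0 := by simp [phi]

theorem phi_step (k b δ : ℕ) (hk : 1 ≤ k) (h : δ < b) :
    phi k b (δ + 1) = phi k b δ + ((b.choose (k - 1) : ℝ) - ((b - δ).choose (k - 1) : ℝ)) := by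
  obtain ⟨k, rfl⟩ := Nat.exists_eq_add_of_le' hk
  have h1 : (b - δ + 1).choose (k + 1) = (b - δ).choose k + (b - δ).choose (k + 1) :=
    Nat.choose_succ_succ _ _
  have h2 : b - (δ + 1) + 1 = b - δ := by omega
  rw [phi, phi, h1, h2, Nat.add_sub_cancel]
  push_cast
  ring

theorem phi_mono (k b : ℕ) (hk : 1 ≤ k) (δ δ' : ℕ) (h : δ ≤ δ') (hb : δ' ≤ b) :
    phi k b δ ≤ phi k b δ' := by
  induction δ', h using Nat.le_induction with
  | base => exact le_rfl
  | succ n hn ih =>
    rw [phi_step k b n hk (by omega)]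
    have h1 := ih (by omega)
    have h2 : ((b - n).choose (k - 1) : ℝ) ≤ (b.choose (k - 1) : ℝ) := by
      exact_mod_cast Nat.choose_le_choose (k - 1) (Nat.sub_le b n)
    linarith

theorem phi_lip (k b : ℕ) (hk : 1 ≤ k) (δ : ℕ) (h : δ < b) :
    phi k b (δ + 1) ≤ phi k b δ + (b.choose (k - 1) : ℝ) := by
  rw [phi_step k b δ hk h]
  have : (0 : ℝ) ≤ ((b - δ).choose (k - 1) : ℝ) := by positivity
  linarith

theorem phi_maj (k b : ℕ) (s t u v : ℕ) (h1 : s ≤ u) (h2 : u + v = s + t) (h3 : u ≤ t)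
    (h4 : t ≤ b) : phi k b u + phi k b v ≤ phi k b s + phi k b t := by
  have key := choose_incr k (s := b - t + 1) (s' := b - u + 1) (by omega) (u - s)
  rw [show b - t + 1 + (u - s) = b - v + 1 by omega,
    show b - u + 1 + (u - s) = b - s + 1 by omega] at key
  have key' : ((b - v + 1).choose k : ℝ) + ((b - u + 1).choose k : ℝ) ≤
      ((b - s + 1).choose k : ℝ) + ((b - t + 1).choose k : ℝ) := by exact_mod_cast key
  have h5 : (u : ℝ) + v = s + t := by exact_mod_cast h2
  unfold phi
  have h6 : (u : ℝ) * (b.choose (k - 1) : ℝ) + v * (b.choose (k - 1) : ℝ) =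
      s * (b.choose (k - 1) : ℝ) + t * (b.choose (k - 1) : ℝ) := by
    rw [← add_mul, ← add_mul, h5]
  linarith

/-- **Existence of the potential.** -/
theorem potential (b q r : ℕ) (hb : 1 ≤ b) (hq : 1 ≤ q) (hr : r ≤ b) (φ : ℕ → ℝ) (D M : ℝ)
    (h0 : φ 0 = 0) (hmono : ∀ δ δ', δ ≤ δ' → δ' ≤ b → φ δ ≤ φ δ')
    (hlip : ∀ δ, δ < b → φ (δ + 1) ≤ φ δ + D)
    (hmaj : ∀ s t u v, s ≤ u → u + v = s + t → u ≤ t → t ≤ b → φ u + φ v ≤ φ s + φ t)
    (hM0 : 0 ≤ M) (hM1 : ((q : ℝ) - 1) * φ b ≤ q * M)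
    (hM2 : ((q : ℝ) - 1) * φ b + φ r ≤ (q + 1) * M) (hM3 : M ≤ φ b) :
    ∃ g : ℕ → ℝ, g 0 = 0 ∧
      (∀ x y, x + b ≤ q * b + r → y + b ≤ q * b + r → g x ≤ g y + M) ∧
      (∀ y δ, δ ≤ b → y + δ + b ≤ q * b + r → g (y + δ) + φ δ ≤ g y + M) ∧
      (∀ x, g x ≤ g (x + 1) + D) := by
  set a := φ b - M with ha
  set U := min (M - (q - 1) * a) (2 * M - (q - 1) * a - φ r) with hU
  have ha0 : 0 ≤ a := by linarith
  have hq' : (1 : ℝ) ≤ q := by exact_mod_cast hq
  have hU0 : 0 ≤ U := by
    apply le_min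
    · rw [ha]; nlinarith
    · rw [ha]; nlinarith
  have hU1 : U ≤ M - (q - 1) * a := min_le_left _ _
  have hU2 : U ≤ 2 * M - (q - 1) * a - φ r := min_le_right _ _
  have hqa : 0 ≤ ((q : ℝ) - 1) * a := mul_nonneg (by linarith) ha0
  have hD : 0 ≤ D := by
    have h1 := hlip 0 (by omega)
    have h2 := hmono 0 1 (by omega) hb
    simp only [zero_add] at h1
    linarith
  set ψ : ℕ → ℝ := fun ρ => min (M - φ ρ) U with hψ
  have hψU : ∀ ρ, ψ ρ ≤ U := fun ρ => min_le_right _ _
  have hψM : ∀ ρ, ψ ρ ≤ M - φ ρ := fun ρ => min_le_left _ _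
  have hψb : ψ b = -a := by
    show min (M - φ b) U = -a
    rw [min_eq_left (by linarith), ha]
    ring
  have hψcases : ∀ ρ, ψ ρ = M - φ ρ ∨ ψ ρ = U := fun ρ => min_choice _ _
  have hψlow : ∀ ρ, ρ ≤ b → -a ≤ ψ ρ := by
    intro ρ hρ
    rcases hψcases ρ with h | h
    · have := hmono ρ b hρ le_rfl
      rw [h]; linarith
    · rw [h]; linarith
  let g : ℕ → ℝ := fun x => ψ ((x + b - 1) % b + 1) - (((x + b - 1) / b : ℕ) : ℝ) * a + a
  have grep : ∀ x i ρ, x + b = i * b + ρ → 1 ≤ ρ → ρ ≤ b → g x = ψ ρ - i * a + a := by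
    intro x i ρ h h1 h2
    have e : x + b - 1 = (ρ - 1) + b * i := by rw [mul_comm b i]; omega
    have e1 : (x + b - 1) % b = ρ - 1 := by
      rw [e, Nat.add_mul_mod_self_left, Nat.mod_eq_of_lt (by omega)]
    have e2 : (x + b - 1) / b = i := by
      rw [e, Nat.add_mul_div_left _ _ (by omega), Nat.div_eq_of_lt (by omega), zero_add]
    show ψ ((x + b - 1) % b + 1) - (((x + b - 1) / b : ℕ) : ℝ) * a + a = _
    rw [e1, e2, show ρ - 1 + 1 = ρ by omega]
  have gex : ∀ x, ∃ i ρ, x + b = i * b + ρ ∧ 1 ≤ ρ ∧ ρ ≤ b := by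
    intro x
    refine ⟨(x + b - 1) / b, (x + b - 1) % b + 1, ?_, by omega, ?_⟩
    · have := Nat.div_add_mod (x + b - 1) b
      rw [mul_comm] at this
      omega
    · have := Nat.mod_lt (x + b - 1) (show b > 0 by omega)
      omega
  have hg0 : g 0 = 0 := by
    rw [grep 0 0 b (by simp) hb le_rfl, hψb]
    simp
  have hgU : ∀ x, g x ≤ U := by
    intro x
    obtain ⟨i, ρ, h, h1, h2⟩ := gex x
    rcases Nat.eq_zero_or_pos i with hi | hi
    · subst hi
      have hx : x = 0 := by omega
      rw [hx, hg0]; exact hU0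
    · rw [grep x i ρ h h1 h2]
      have h3 := hψU ρ
      have h4 : (1 : ℝ) ≤ i := by exact_mod_cast hi
      nlinarith
  refine ⟨g, hg0, ?_, ?_, ?_⟩
  · intro x y _ hy
    have hx := hgU x
    obtain ⟨i, ρ, h, h1, h2⟩ := gex y
    rw [grep y i ρ h h1 h2]
    have hiq : i ≤ q := by
      by_contra hcon
      push Not at hcon
      have : (q + 1) * b ≤ i * b := Nat.mul_le_mul_right b hcon
      rw [add_mul, one_mul] at this
      omega
    rcases hiq.lt_or_eq with hi | hi
    · have h3 := hψlow ρ h2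
      have h4 : (i : ℝ) ≤ q - 1 := by
        have : (i : ℝ) + 1 ≤ q := by exact_mod_cast hi
        linarith
      have h5 : (i : ℝ) * a ≤ (q - 1) * a := mul_le_mul_of_nonneg_right h4 ha0
      linarith
    · subst hi
      have hρ : ρ ≤ r := by omega
      rcases hψcases ρ with h3 | h3
      · have h4 := hmono ρ r hρ hr
        rw [h3]
        nlinarith
      · rw [h3]
        nlinarith
  · intro y δ hδ _
    obtain ⟨i, ρ, h, h1, h2⟩ := gex (y + δ)
    obtain ⟨i', ρ', h', h1', h2'⟩ := gex y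
    rw [grep (y + δ) i ρ h h1 h2, grep y i' ρ' h' h1' h2']
    have hi' : i' ≤ i := by
      by_contra hcon
      push Not at hcon
      have : (i + 1) * b ≤ i' * b := Nat.mul_le_mul_right b hcon
      rw [add_mul, one_mul] at this
      omega
    obtain ⟨d, rfl⟩ := Nat.exists_eq_add_of_le hi'
    have hd : d ≤ 1 := by
      by_contra hcon
      push Not at hcon
      have : 2 * b ≤ d * b := Nat.mul_le_mul_right b hcon
      rw [add_mul] at h
      omega
    interval_cases d
    · have e : ρ = ρ' + δ := by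
        rw [add_zero] at h
        omega
      rw [add_zero]
      rcases hψcases ρ' with h3 | h3
      · have h4 := hψM ρ
        have h5 := hmaj 0 ρ δ ρ' (by omega) (by omega) (by omega) h2
        rw [h3]
        rw [h0] at h5
        linarith
      · have h4 := hψM ρ
        have h5 := hmono δ ρ (by omega) h2
        rw [h3]
        linarith
    · have e : b + ρ = ρ' + δ := by
        rw [add_mul, one_mul] at h
        omega
      push_cast
      have key : ψ ρ + φ δ ≤ φ b + ψ ρ' := by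
        rcases hψcases ρ' with h3 | h3
        · have h4 := hψM ρ
          have h5 := hmaj ρ b δ ρ' (by omega) (by omega) (by omega) le_rfl
          rw [h3]
          linarith
        · have h4 := hψU ρ
          have h5 := hmono δ b (by omega) le_rfl
          rw [h3]
          linarith
      rw [ha] at *
      linarith
  · intro x
    obtain ⟨i, ρ, h, h1, h2⟩ := gex x
    rcases h2.lt_or_eq with h3 | h3
    · rw [grep x i ρ h h1 h2, grep (x + 1) i (ρ + 1) (by omega) (by omega) (by omega)]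
      have h4 := hlip ρ h3
      have key : ψ ρ ≤ ψ (ρ + 1) + D := by
        rcases hψcases (ρ + 1) with h5 | h5
        · have := hψM ρ
          rw [h5]; linarith
        · have := hψU ρ
          rw [h5]; linarith
      linarith
    · subst h3
      rw [grep x i ρ h h1 h2, grep (x + 1) (i + 1) 1 (by rw [add_mul]; omega) le_rfl hb, hψb]
      have h4 := hlip 0 (by omega)
      rw [h0, zero_add, zero_add] at h4
      have key : 0 ≤ ψ 1 + D := by
        rcases hψcases 1 with h5 | h5
        · rw [h5]; linarith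
        · rw [h5]; linarith
      push_cast
      linarith

end H68.BW
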