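import Mathlib
import Pool.Agent.H68.BW.Hall
import Pool.Agent.H68.BW.Count
import Pool.Agent.H68.BW.Potential

/-!
# The graph `G_{n,k,b}` and the upper bound for its bandwidth
-/

open Finset

namespace H68.BW

/-- The vertices of `G_{n,k,b}`: the `k`-element subsets `X` of `{0,…,n}` with
`max X - min X ≤ b`. -/
def verts (n k b : ℕ) : Finset (Finset ℕ) :=
  ((Finset.range (n + 1)).powersetCard k).filter fun X => ∀ x ∈ X, ∀ y ∈ X, y ≤ x + b

/-- The graph `G_{n,k,b}`: distinct `X`, `Y` are adjacent iff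
`max (X ∪ Y) - min (X ∪ Y) ≤ b`. -/
def G (n k b : ℕ) : SimpleGraph (verts n k b) where
  Adj X Y := X ≠ Y ∧ ∀ x ∈ X.1 ∪ Y.1, ∀ y ∈ X.1 ∪ Y.1, y ≤ x + b
  symm := ⟨fun X Y h => ⟨h.1.symm, fun x hx y hy =>
    h.2 x (by rwa [Finset.union_comm]) y (by rwa [Finset.union_comm])⟩⟩
  loopless := ⟨fun _ h => h.1 rfl⟩

/-- The bandwidth of a finite graph: the least `w` such that some numbering `f` of the vertices
satisfies `|f u - f v| ≤ w` for all edges `uv`. -/
noncomputable def bandwidth {V : Type*} [Fintype V] (H : SimpleGraph V) : ℕ :=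
  sInf {w : ℕ | ∃ f : V ≃ Fin (Fintype.card V), ∀ u v, H.Adj u v →
    |((f u : ℕ) : ℤ) - ((f v : ℕ) : ℤ)| ≤ w}

/-- An injective labelling bounds the bandwidth. -/
theorem bandwidth_le {V : Type*} [Fintype V] (H : SimpleGraph V) (f : V → ℕ)
    (hf : Function.Injective f) (w : ℕ) (h : ∀ u v, H.Adj u v → f u ≤ f v → f v ≤ f u + w) :
    bandwidth H ≤ w := by
  obtain ⟨e, he⟩ := H68.BW.exists_equiv_fin f hf
  refine Nat.sInf_le ⟨e, fun u v huv => ?_⟩
  rcases le_total (f u) (f v) with hh | hh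
  · have h1 := he u v hh
    have h2 := h u v huv hh
    rw [abs_le]
    constructor <;> omega
  · have h1 := he v u hh
    have h2 := h v u huv.symm hh
    rw [abs_le]
    constructor <;> omega

theorem verts_eq_ivl (n k b : ℕ) : verts n k b = ivl k b 0 n := by
  rw [verts, ivl]
  congr 2
  ext x
  simp [Finset.mem_range, Finset.mem_Icc]

theorem mem_verts {n k b : ℕ} {X : Finset ℕ} :
    X ∈ verts n k b ↔ ((∀ u ∈ X, u ≤ n) ∧ X.card = k) ∧ ∀ u ∈ X, ∀ v ∈ X, v ≤ u + b := by
  rw [verts_eq_ivl, mem_ivl]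
  simp

theorem card_verts (n k b : ℕ) (hk : 1 ≤ k) : Fintype.card (verts n k b) = Wd k b n := by
  rw [Fintype.card_coe, verts_eq_ivl]
  have := card_ivl k b hk 0 n
  rwa [zero_add] at this

theorem exists_ac {n k b : ℕ} (hk : 1 ≤ k) (X : verts n k b) :
    ∃ p : ℕ × ℕ, p.1 ∈ X.1 ∧ p.2 ∈ X.1 ∧ (∀ u ∈ X.1, p.1 ≤ u ∧ u ≤ p.2) ∧ p.2 ≤ n ∧
      p.2 ≤ p.1 + b ∧ p.1 ≤ p.2 := by
  obtain ⟨X, hX⟩ := X
  have hX' := mem_verts.1 hX
  have hne : X.Nonempty := by
    rw [← Finset.card_pos]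
    omega
  refine ⟨(X.min' hne, X.max' hne), X.min'_mem hne, X.max'_mem hne, fun u hu =>
    ⟨X.min'_le u hu, X.le_max' u hu⟩, hX'.1.1 _ (X.max'_mem hne),
    hX'.2 _ (X.min'_mem hne) _ (X.max'_mem hne), X.min'_le _ (X.max'_mem hne)⟩

theorem card_le_Wd {n k b : ℕ} (hk : 1 ≤ k) (T : Finset (verts n k b)) (x l : ℕ)
    (hT : ∀ X ∈ T, ∀ u ∈ X.1, x ≤ u ∧ u ≤ x + l) : T.card ≤ Wd k b l := by
  rw [← card_ivl k b hk x l, ← Finset.card_map (Function.Embedding.subtype _)]
  apply Finset.card_le_card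
  intro Y hY
  obtain ⟨X, hX, rfl⟩ := Finset.mem_map.1 hY
  rw [mem_ivl]
  have h := mem_verts.1 X.2
  exact ⟨⟨hT X hX, h.1.2⟩, h.2⟩

/-- The maximal cyclic excess. -/
noncomputable def Mx (k b q r : ℕ) : ℝ :=
  max (((q : ℝ) - 1) * phi k b b / q) ((((q : ℝ) - 1) * phi k b b + phi k b r) / (q + 1))

theorem bandwidth_le_ceil (n k b q r : ℕ) (hk : 1 ≤ k) (hb : 1 ≤ b) (hq : 1 ≤ q) (hr : r ≤ b)
    (hn : n ≤ q * b + r) (hbn : b ≤ n) :
    bandwidth (G n k b) ≤ ⌈((b + 1).choose k : ℝ) + Mx k b q r⌉₊ := by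
  classical
  have hq' : (1 : ℝ) ≤ q := by exact_mod_cast hq
  have hqpos : (0 : ℝ) < q := by linarith
  have hpb : 0 ≤ phi k b b := by
    have := phi_mono k b hk 0 b (by omega) le_rfl
    rwa [phi_zero] at this
  have hpr : phi k b r ≤ phi k b b := phi_mono k b hk r b hr le_rfl
  have hM1 : ((q : ℝ) - 1) * phi k b b ≤ q * Mx k b q r := by
    have h : ((q : ℝ) - 1) * phi k b b / q ≤ Mx k b q r := le_max_left _ _
    rw [div_le_iff₀ hqpos] at h
    linarith
  have hM2 : ((q : ℝ) - 1) * phi k b b + phi k b r ≤ (q + 1) * Mx k b q r := by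
    have h : (((q : ℝ) - 1) * phi k b b + phi k b r) / (q + 1) ≤ Mx k b q r := le_max_right _ _
    rw [div_le_iff₀ (by positivity)] at h
    linarith
  have hM0 : 0 ≤ Mx k b q r := by
    refine le_trans ?_ (le_max_left _ _)
    exact div_nonneg (mul_nonneg (by linarith) hpb) hqpos.le
  have hM3 : Mx k b q r ≤ phi k b b := by
    apply max_le
    · rw [div_le_iff₀ hqpos]
      nlinarith
    · rw [div_le_iff₀ (by positivity)]
      nlinarith
  obtain ⟨g, hg0, hg1, hg2, hg3⟩ := potential b q r hb hq hr (phi k b) (b.choose (k - 1) : ℝ)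
    (Mx k b q r) (phi_zero k b) (phi_mono k b hk) (phi_lip k b hk) (phi_maj k b) hM0 hM1 hM2 hM3
  set M := Mx k b q r with hM
  set D : ℝ := (b.choose (k - 1) : ℝ) with hD
  let h : ℕ → ℝ := fun x => D * x + g x
  have hmono : Monotone h := monotone_nat_of_le_succ fun x => by
    show D * x + g x ≤ D * (x + 1 : ℕ) + g (x + 1)
    push_cast
    have := hg3 x
    linarith
  have hpos : ∀ x, 0 ≤ h x := fun x => by
    have h1 := hmono (Nat.zero_le x)
    have h2 : h 0 = 0 := by simp [h, hg0]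
    rw [h2] at h1
    exact h1
  have hfmono : Monotone fun x => ⌊h x⌋₊ := fun x y hxy => Nat.floor_mono (hmono hxy)
  set B := ⌈((b + 1).choose k : ℝ) + M⌉₊ with hB
  have key : ∀ x y, x ≤ n - b → y ≤ n - b → x ≤ y + b →
      Wd k b (y + b - x) + ⌊h x⌋₊ ≤ ⌊h y⌋₊ + B := by
    intro x y hx hy hxy
    have hreal : (Wd k b (y + b - x) : ℝ) + h x ≤ h y + (((b + 1).choose k : ℝ) + M) := by
      rcases le_total x y with hle | hle
      · obtain ⟨d, rfl⟩ := Nat.exists_eq_add_of_le hle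
        rw [Wd_of_ge (by omega), show x + d + b - x - b = d by omega]
        have h1 := hg1 x (x + d) (by omega) (by omega)
        show (((b + 1).choose k + d * b.choose (k - 1) : ℕ) : ℝ) + (D * x + g x) ≤
          D * ((x + d : ℕ) : ℝ) + g (x + d) + (((b + 1).choose k : ℝ) + M)
        push_cast
        rw [hD]
        linarith
      · obtain ⟨δ, rfl⟩ := Nat.exists_eq_add_of_le hle
        rw [show y + b - (y + δ) = b - δ by omega, Wd_of_le (by omega)]
        have h1 := hg2 y δ (by omega) (by omega)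
        show (((b - δ + 1).choose k : ℕ) : ℝ) + (D * ((y + δ : ℕ) : ℝ) + g (y + δ)) ≤
          D * y + g y + (((b + 1).choose k : ℝ) + M)
        rw [phi, ← hD] at h1
        push_cast
        linarith
    have hfx : (⌊h x⌋₊ : ℝ) ≤ h x := Nat.floor_le (hpos x)
    have hfy : h y < ⌊h y⌋₊ + 1 := Nat.lt_floor_add_one _
    have hBB : ((b + 1).choose k : ℝ) + M ≤ B := Nat.le_ceil _
    have hlt : (Wd k b (y + b - x) : ℝ) + ⌊h x⌋₊ < ⌊h y⌋₊ + B + 1 := by linarith
    have hlt' : Wd k b (y + b - x) + ⌊h x⌋₊ < ⌊h y⌋₊ + B + 1 := by exact_mod_cast hlt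
    omega
  choose p hp using fun X : verts n k b => exists_ac hk X
  obtain ⟨f, hf, hfw⟩ := H68.BW.interval_hall
    (fun X => ⌊h (min (p X).1 (n - b))⌋₊)
    (fun X => ⌊h ((p X).2 - b)⌋₊ + B)
    (fun X => by
      have h1 := hp X
      have := key (min (p X).1 (n - b)) ((p X).2 - b) (min_le_right _ _) (by omega)
        (by omega)
      show ⌊h (min (p X).1 (n - b))⌋₊ ≤ _
      omega)
    (fun T s t hT hne => by
      obtain ⟨X0, hX0, hmin⟩ := Finset.exists_min_image T (fun X => min (p X).1 (n - b)) hne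
      obtain ⟨X1, hX1, hmax⟩ := Finset.exists_max_image T (fun X => (p X).2 - b) hne
      have h0 := hp X0
      have h1 := hp X1
      have hm0 := hmax X0 hX0
      have hle : min (p X0).1 (n - b) ≤ (p X1).2 - b + b := by omega
      have hk' := key (min (p X0).1 (n - b)) ((p X1).2 - b) (min_le_right _ _) (by omega) hle
      have hc := card_le_Wd hk T (min (p X0).1 (n - b))
        ((p X1).2 - b + b - min (p X0).1 (n - b))
        (fun X hX u hu => by
          have a1 := hmin X hX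
          have a2 := hmax X hX
          have a3 := (hp X).2.2.1 u hu
          constructor <;> omega)
      have b1 := (hT X0 hX0).1
      have b2 := (hT X1 hX1).2
      omega)
  refine bandwidth_le _ f hf _ fun X Y hXY hle => ?_
  have h1 := (hfw X).1
  have h2 := (hfw Y).2
  have hX := hp X
  have hY := hp Y
  have hadj : (p Y).2 ≤ (p X).1 + b := by
    apply hXY.2
    · exact Finset.mem_union_left _ hX.1
    · exact Finset.mem_union_right _ hY.2.1
  have hmn := hfmono (show (p Y).2 - b ≤ min (p X).1 (n - b) by omega)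
  simp only at h1 h2 hmn
  omega

end H68.BW
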