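import Mathlib
import Pool.Agent.H68.BW.Upper

/-!
# The lower bounds for the bandwidth of `G_{n,k,b}`
-/

open Finset

namespace H68.BW

theorem exists_numbering {V : Type*} [Fintype V] (H : SimpleGraph V) :
    ∃ f : V ≃ Fin (Fintype.card V), ∀ u v, H.Adj u v →
      |((f u : ℕ) : ℤ) - ((f v : ℕ) : ℤ)| ≤ bandwidth H := by
  have hne : {w : ℕ | ∃ f : V ≃ Fin (Fintype.card V), ∀ u v, H.Adj u v →
      |((f u : ℕ) : ℤ) - ((f v : ℕ) : ℤ)| ≤ w}.Nonempty := by
    refine ⟨Fintype.card V, Fintype.equivFin V, fun u v _ => ?_⟩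
    have h1 := (Fintype.equivFin V u).2
    have h2 := (Fintype.equivFin V v).2
    rw [abs_le]
    constructor <;> omega
  exact Nat.sInf_mem hne

/-- The span reached by `m` steps. -/
def sp (k b m : ℕ) : ℕ := m * (b + 1 - k) + (k - 1)

theorem sp_one {k b : ℕ} (hk : 1 ≤ k) (hkb : k ≤ b + 1) : sp k b 1 = b := by
  unfold sp; omega

theorem sp_succ (k b m : ℕ) : sp k b (m + 1) = sp k b m + (b + 1 - k) := by
  unfold sp; ring

theorem le_sp {k b m : ℕ} (hk : 1 ≤ k) (hkb : k ≤ b + 1) (hm : 1 ≤ m) : b ≤ sp k b m := by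
  obtain ⟨m, rfl⟩ := Nat.exists_eq_add_of_le' hm
  rw [sp, add_mul, one_mul]
  omega

theorem dist_aux {n k b : ℕ} (hk : 1 ≤ k) (hkb : k ≤ b + 1) (F : verts n k b → ℤ) (w : ℤ)
    (hw : 0 ≤ w) (hF : ∀ X Y, (G n k b).Adj X Y → |F X - F Y| ≤ w) (m : ℕ) (hm : 1 ≤ m) :
    ∀ X Y : verts n k b, (∀ u ∈ X.1 ∪ Y.1, ∀ v ∈ X.1 ∪ Y.1, v ≤ u + sp k b m) →
      |F X - F Y| ≤ m * w := by
  have hadj : ∀ X Y : verts n k b, (∀ u ∈ X.1 ∪ Y.1, ∀ v ∈ X.1 ∪ Y.1, v ≤ u + b) →
      |F X - F Y| ≤ w := by
    intro X Y h
    rcases eq_or_ne X Y with rfl | hne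
    · simpa using hw
    · exact hF X Y ⟨hne, h⟩
  induction m, hm using Nat.le_induction with
  | base =>
    intro X Y h
    rw [sp_one hk hkb] at h
    simpa using hadj X Y h
  | succ m hm ih =>
    have main : ∀ X Y : verts n k b,
        (∀ u ∈ X.1 ∪ Y.1, ∀ v ∈ X.1 ∪ Y.1, v ≤ u + sp k b (m + 1)) →
        (∃ u ∈ X.1, ∃ v ∈ Y.1, u + b < v) → |F X - F Y| ≤ ((m + 1 : ℕ) : ℤ) * w := by
      intro X Y h hex
      obtain ⟨u, hu, v, hv, huv⟩ := hex
      obtain ⟨⟨a, a'⟩, ha1, ha2, ha3, ha4, ha5, ha6⟩ := exists_ac hk X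
      obtain ⟨⟨c', c⟩, hc1, hc2, hc3, hc4, hc5, hc6⟩ := exists_ac hk Y
      simp only at ha1 ha2 ha3 ha4 ha5 ha6 hc1 hc2 hc3 hc4 hc5 hc6
      have hbm : b ≤ sp k b m := le_sp hk hkb hm
      have hua := ha3 u hu
      have hvc := hc3 v hv
      have hX' : Finset.Icc (a + b + 1 - k) (a + b) ∈ verts n k b := by
        rw [mem_verts]
        refine ⟨⟨fun x hx => ?_, ?_⟩, fun x hx y hy => ?_⟩
        · have := Finset.mem_Icc.1 hx
          omega
        · rw [Nat.card_Icc]
          omega
        · have := Finset.mem_Icc.1 hx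
          have := Finset.mem_Icc.1 hy
          omega
      have h1 : |F X - F ⟨_, hX'⟩| ≤ w := by
        apply hadj
        have hin : ∀ x ∈ X.1 ∪ Finset.Icc (a + b + 1 - k) (a + b), a ≤ x ∧ x ≤ a + b := by
          intro x hx
          rcases Finset.mem_union.1 hx with hx | hx
          · have := ha3 x hx
            omega
          · have := Finset.mem_Icc.1 hx
            omega
        intro x hx y hy
        have := hin x hx
        have := hin y hy
        omega
      have h2 : |F ⟨_, hX'⟩ - F Y| ≤ m * w := by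
        apply ih
        have hac := h a (Finset.mem_union_left _ ha1) c (Finset.mem_union_right _ hc2)
        rw [sp_succ] at hac
        intro x hx y hy
        simp only at hx hy
        rcases Finset.mem_union.1 hx with hx | hx <;> rcases Finset.mem_union.1 hy with hy | hy
        · have := Finset.mem_Icc.1 hx
          have := Finset.mem_Icc.1 hy
          omega
        · have := Finset.mem_Icc.1 hx
          have := hc3 y hy
          omega
        · have := Finset.mem_Icc.1 hy
          have := hc3 x hx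
          omega
        · have := hc3 x hx
          have := hc3 y hy
          omega
      have h3 : F X - F Y = (F X - F ⟨_, hX'⟩) + (F ⟨_, hX'⟩ - F Y) := by ring
      rw [h3]
      refine (abs_add_le _ _).trans ?_
      push_cast
      linarith
    intro X Y h
    by_cases hall : ∀ u ∈ X.1 ∪ Y.1, ∀ v ∈ X.1 ∪ Y.1, v ≤ u + b
    · have h1 := hadj X Y hall
      push_cast
      have : 0 ≤ (m : ℤ) * w := by positivity
      linarith
    · push Not at hall
      obtain ⟨u, hu, v, hv, huv⟩ := hall
      have hXX := (mem_verts.1 X.2).2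
      have hYY := (mem_verts.1 Y.2).2
      rcases Finset.mem_union.1 hu with hu' | hu' <;> rcases Finset.mem_union.1 hv with hv' | hv'
      · have := hXX u hu' v hv'
        omega
      · exact main X Y h ⟨u, hu', v, hv', huv⟩
      · rw [abs_sub_comm]
        refine main Y X ?_ ⟨u, hu', v, hv', huv⟩
        rw [Finset.union_comm]
        exact h
      · have := hYY u hu' v hv'
        omega

/-- The vertices contained in `{x, ..., x + l}`. -/
def Z (n k b x l : ℕ) : Finset (verts n k b) :=
  Finset.univ.filter fun X => ∀ u ∈ X.1, x ≤ u ∧ u ≤ x + l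

theorem card_Z {n k b : ℕ} (hk : 1 ≤ k) (x l : ℕ) (h : x + l ≤ n) :
    (Z n k b x l).card = Wd k b l := by
  rw [← card_ivl k b hk x l, ← Finset.card_map (Function.Embedding.subtype _)]
  congr 1
  ext Y
  rw [Finset.mem_map, mem_ivl]
  constructor
  · rintro ⟨X, hX, rfl⟩
    have h1 := mem_verts.1 X.2
    rw [Z, Finset.mem_filter] at hX
    exact ⟨⟨hX.2, h1.1.2⟩, h1.2⟩
  · rintro ⟨⟨h1, h2⟩, h3⟩
    refine ⟨⟨Y, mem_verts.2 ⟨⟨fun u hu => ?_, h2⟩, h3⟩⟩, ?_, rfl⟩
    · have := h1 u hu
      omega
    · rw [Z, Finset.mem_filter]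
      exact ⟨Finset.mem_univ _, h1⟩

theorem card_le_of_mem_Icc {V : Type*} (S : Finset V) (F : V → ℤ) (hF : Function.Injective F)
    (A B : ℤ) (hAB : A ≤ B + 1) (h : ∀ X ∈ S, A ≤ F X ∧ F X ≤ B) : (S.card : ℤ) ≤ B - A + 1 := by
  have h1 : S.card ≤ (Finset.Icc A B).card :=
    Finset.card_le_card_of_injOn F (fun X hX => by
      rw [Finset.coe_Icc, Set.mem_Icc]
      exact h X hX) hF.injOn
  rw [Int.card_Icc] at h1
  omega

theorem card_le_of_diff {V : Type*} (S : Finset V) (F : V → ℤ) (hF : Function.Injective F)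
    (D : ℤ) (hD : 0 ≤ D) (h : ∀ X ∈ S, ∀ Y ∈ S, |F X - F Y| ≤ D) : (S.card : ℤ) ≤ D + 1 := by
  rcases S.eq_empty_or_nonempty with rfl | hne
  · simp; omega
  · obtain ⟨X0, hX0, hmin⟩ := Finset.exists_min_image S F hne
    have := card_le_of_mem_Icc S F hF (F X0) (F X0 + D) (by omega) (fun X hX => ?_)
    · linarith
    · have h1 := hmin X hX
      have h2 := h X hX X0 hX0
      rw [abs_le] at h2
      constructor <;> linarith

theorem lower_one {n k b q l : ℕ} (hk : 1 ≤ k) (hkb : k ≤ b + 1) (hq : 1 ≤ q) (hln : l ≤ n)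
    (hl : l ≤ sp k b q) : Wd k b l ≤ q * bandwidth (G n k b) + 1 := by
  obtain ⟨f, hf⟩ := exists_numbering (G n k b)
  set w := bandwidth (G n k b) with hw
  have hinj : Function.Injective (fun X : verts n k b => ((f X : ℕ) : ℤ)) := by
    intro X Y h
    apply f.injective
    simp only [Nat.cast_inj] at h
    exact Fin.ext h
  have h1 := card_le_of_diff (Z n k b 0 l) (fun X : verts n k b => ((f X : ℕ) : ℤ)) hinj
    ((q : ℤ) * w) (by positivity) (fun X hX Y hY => by
      apply dist_aux hk hkb (fun X : verts n k b => ((f X : ℕ) : ℤ)) w (by positivity) hf q hq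
      rw [Z, Finset.mem_filter] at hX hY
      have hin : ∀ x ∈ X.1 ∪ Y.1, x ≤ l := by
        intro x hx
        rcases Finset.mem_union.1 hx with hx | hx
        · have := hX.2 x hx
          omega
        · have := hY.2 x hx
          omega
      intro x hx y hy
      have := hin x hx
      have := hin y hy
      omega)
  rw [card_Z hk 0 l (by omega)] at h1
  exact_mod_cast h1

theorem lower_two {n k b q : ℕ} (hk : 1 ≤ k) (hkb : k ≤ b + 1) (hq : 1 ≤ q) (hbn : b ≤ n)
    (hr : n - sp k b q + (k - 1) ≤ b) :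
    Wd k b n + (b - (n - sp k b q) + 1).choose k ≤ (q + 1) * bandwidth (G n k b) + 2 := by
  obtain ⟨f, hf⟩ := exists_numbering (G n k b)
  set w := bandwidth (G n k b) with hw
  set r := n - sp k b q with hrdef
  set F : verts n k b → ℤ := fun X => ((f X : ℕ) : ℤ) with hFdef
  have hinj : Function.Injective F := by
    intro X Y h
    apply f.injective
    simp only [hFdef, Nat.cast_inj] at h
    exact Fin.ext h
  have hdist := dist_aux hk hkb F w (by positivity) hf
  have hZc := card_Z (n := n) (b := b) hk r (b - r) (by omega)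
  rw [Wd_of_le (by omega)] at hZc
  have hZpos : 0 < (Z n k b r (b - r)).card := by
    rw [hZc]
    exact Nat.choose_pos (by omega)
  obtain ⟨X0, _⟩ := Finset.card_pos.1 hZpos
  have hN : 0 < Fintype.card (verts n k b) := Fintype.card_pos_iff.2 ⟨X0⟩
  have hNW := card_verts n k b hk
  rw [← hNW]
  have hZmem : ∀ X ∈ Z n k b r (b - r), ∀ u ∈ X.1, r ≤ u ∧ u ≤ b := by
    intro X hX u hu
    rw [Z, Finset.mem_filter] at hX
    have := hX.2 u hu
    omega
  have hsp : b ≤ sp k b q := le_sp hk hkb hq
  set A := f.symm ⟨0, hN⟩ with hA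
  set E := f.symm ⟨Fintype.card (verts n k b) - 1, by omega⟩ with hE
  have hFA : F A = 0 := by simp [hFdef, hA]
  have hFE : F E = (Fintype.card (verts n k b) : ℤ) - 1 := by
    simp only [hFdef, hE, Equiv.apply_symm_apply]
    omega
  have hqw : 0 ≤ (q : ℤ) * w := by positivity
  -- the set `Z` in terms of two far apart vertices
  have main : ∀ X Y : verts n k b, (∃ u ∈ X.1, ∃ v ∈ Y.1, u + sp k b q < v) →
      ∀ T ∈ Z n k b r (b - r), |F X - F T| ≤ w ∧ |F T - F Y| ≤ q * w := by
    rintro X Y ⟨u, hu, v, hv, huv⟩ T hT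
    have hX := mem_verts.1 X.2
    have hY := mem_verts.1 Y.2
    have hvn := hY.1.1 v hv
    have hTm := hZmem T hT
    constructor
    · have := hdist 1 le_rfl X T (by
        rw [sp_one hk hkb]
        intro x hx y hy
        rcases Finset.mem_union.1 hx with hx | hx <;> rcases Finset.mem_union.1 hy with hy | hy
        · exact hX.2 x hx y hy
        · have := hTm y hy
          omega
        · have := hTm x hx
          have := hX.2 u hu y hy
          omega
        · have := hTm x hx
          have := hTm y hy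
          omega)
      simpa using this
    · apply hdist q hq
      intro x hx y hy
      rcases Finset.mem_union.1 hx with hx | hx <;> rcases Finset.mem_union.1 hy with hy | hy
      · have := hTm x hx
        have := hTm y hy
        omega
      · have := hTm x hx
        have := hY.1.1 y hy
        omega
      · have := hTm y hy
        omega
      · have := hY.2 x hx y hy
        omega
  by_cases hall : ∀ u ∈ A.1 ∪ E.1, ∀ v ∈ A.1 ∪ E.1, v ≤ u + sp k b q
  · have h1 := hdist q hq A E hall
    rw [hFA, hFE, abs_le] at h1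
    have h2 := card_le_of_diff (Z n k b r (b - r)) F hinj w (by positivity) (fun X hX Y hY => by
      have := hdist 1 le_rfl X Y (by
        rw [sp_one hk hkb]
        have hX' := hZmem X hX
        have hY' := hZmem Y hY
        have hin : ∀ x ∈ X.1 ∪ Y.1, x ≤ b := by
          intro x hx
          rcases Finset.mem_union.1 hx with hx | hx
          · exact (hX' x hx).2
          · exact (hY' x hx).2
        intro x hx y hy
        have := hin y hy
        omega)
      simpa using this)
    rw [hZc] at h2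
    have h3 : ((Fintype.card (verts n k b) : ℤ)) + ((b - r + 1).choose k : ℤ) ≤
        (q + 1) * w + 2 := by linarith [h1.1, h1.2]
    exact_mod_cast h3
  · push Not at hall
    obtain ⟨u, hu, v, hv, huv⟩ := hall
    have hAA := (mem_verts.1 A.2).2
    have hEE := (mem_verts.1 E.2).2
    have fin : (∀ T ∈ Z n k b r (b - r), (Fintype.card (verts n k b) : ℤ) - 1 - q * w ≤ F T ∧
        F T ≤ w) ∨ (∀ T ∈ Z n k b r (b - r), (Fintype.card (verts n k b) : ℤ) - 1 - w ≤ F T ∧
        F T ≤ q * w) := by
      rcases Finset.mem_union.1 hu with hu' | hu' <;> rcases Finset.mem_union.1 hv with hv' | hv'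
      · have := hAA u hu' v hv'
        omega
      · left
        intro T hT
        obtain ⟨h1, h2⟩ := main A E ⟨u, hu', v, hv', huv⟩ T hT
        rw [hFA, abs_le] at h1
        rw [hFE, abs_le] at h2
        constructor
        · linarith [h2.1]
        · linarith [h1.1]
      · right
        intro T hT
        obtain ⟨h1, h2⟩ := main E A ⟨u, hu', v, hv', huv⟩ T hT
        rw [hFE, abs_le] at h1
        rw [hFA, abs_le] at h2
        constructor
        · linarith [h1.2]
        · linarith [h2.2]
      · have := hEE u hu' v hv'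
        omega
    obtain ⟨T0, hT0⟩ := Finset.card_pos.1 hZpos
    have h3 : ((Fintype.card (verts n k b) : ℤ)) + ((b - r + 1).choose k : ℤ) ≤
        (q + 1) * w + 2 := by
      rcases fin with hfin | hfin
      · have h4 := hfin T0 hT0
        have h5 := card_le_of_mem_Icc _ F hinj _ _ (by linarith [h4.1, h4.2]) hfin
        rw [hZc] at h5
        linarith
      · have h4 := hfin T0 hT0
        have h5 := card_le_of_mem_Icc _ F hinj _ _ (by linarith [h4.1, h4.2]) hfin
        rw [hZc] at h5
        linarith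
    exact_mod_cast h3

end H68.BW
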