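import Mathlib
import Pool.Agent.H68.BW.Lower

/-!
# Asymptotics
-/

open Finset Filter Topology

namespace H68.BW

theorem tendsto_close {m p : ℕ → ℝ} {μ : ℝ} (C : ℝ)
    (hm : Tendsto (fun n : ℕ => m n / (n : ℝ)) atTop (𝓝 μ)) (h : ∀ n, |p n - m n| ≤ C) :
    Tendsto (fun n : ℕ => p n / (n : ℝ)) atTop (𝓝 μ) := by
  have h1 : Tendsto (fun n : ℕ => C / (n : ℝ)) atTop (𝓝 0) := tendsto_const_div_atTop_nhds_zero_nat C
  have h2 : Tendsto (fun n : ℕ => (p n - m n) / (n : ℝ)) atTop (𝓝 0) := by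
    apply squeeze_zero_norm _ h1
    intro n
    rw [Real.norm_eq_abs, abs_div, Nat.abs_cast]
    exact div_le_div_of_nonneg_right (h n) (Nat.cast_nonneg n)
  have h3 := hm.add h2
  rw [add_zero] at h3
  refine h3.congr fun n => ?_
  rw [← add_div]
  congr 1
  ring

theorem tendsto_choose {m : ℕ → ℕ} {μ : ℝ}
    (hm : Tendsto (fun n : ℕ => (m n : ℝ) / (n : ℝ)) atTop (𝓝 μ)) (k : ℕ) :
    Tendsto (fun n : ℕ => ((m n).choose k : ℝ) / (n : ℝ) ^ k) atTop
      (𝓝 (μ ^ k / k.factorial)) := by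
  have hl : Tendsto (fun n : ℕ => ((m n + 1 - k : ℕ) : ℝ) / (n : ℝ)) atTop (𝓝 μ) := by
    apply tendsto_close (k + 1) hm
    intro n
    rw [abs_le]
    constructor
    · have : m n ≤ (m n + 1 - k) + k := by omega
      have h2 : (m n : ℝ) ≤ ((m n + 1 - k : ℕ) : ℝ) + k := by exact_mod_cast this
      linarith
    · have : (m n + 1 - k) ≤ m n + 1 := by omega
      have h2 : ((m n + 1 - k : ℕ) : ℝ) ≤ m n + 1 := by exact_mod_cast this
      have : (0 : ℝ) ≤ k := by positivity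
      linarith
  have h1 := (hl.pow k).div_const (k.factorial : ℝ)
  have h2 := (hm.pow k).div_const (k.factorial : ℝ)
  refine tendsto_of_tendsto_of_tendsto_of_le_of_le h1 h2 (fun n => ?_) (fun n => ?_)
  · simp only
    rw [div_pow, div_right_comm]
    apply div_le_div_of_nonneg_right _ (by positivity)
    exact Nat.pow_le_choose k (m n)
  · simp only
    rw [div_pow, div_right_comm]
    apply div_le_div_of_nonneg_right _ (by positivity)
    exact Nat.choose_le_pow_div k (m n)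

theorem cast_sub_max (x y : ℕ) : ((x - y : ℕ) : ℝ) = max ((x : ℝ) - y) 0 := by
  rcases le_total y x with h | h
  · rw [Nat.cast_sub h, max_eq_left]
    have : (y : ℝ) ≤ x := by exact_mod_cast h
    linarith
  · rw [Nat.sub_eq_zero_of_le h, max_eq_right]
    · simp
    · have : (x : ℝ) ≤ y := by exact_mod_cast h
      linarith

theorem tendsto_sub {x y : ℕ → ℕ} {ξ η : ℝ}
    (hx : Tendsto (fun n : ℕ => (x n : ℝ) / (n : ℝ)) atTop (𝓝 ξ))
    (hy : Tendsto (fun n : ℕ => (y n : ℝ) / (n : ℝ)) atTop (𝓝 η)) :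
    Tendsto (fun n : ℕ => ((x n - y n : ℕ) : ℝ) / (n : ℝ)) atTop (𝓝 (max (ξ - η) 0)) := by
  have h := (hx.sub hy).max (tendsto_const_nhds (x := (0 : ℝ)))
  refine h.congr fun n => ?_
  rw [cast_sub_max, ← sub_div]
  have : (0 : ℝ) = 0 / (n : ℝ) := by simp
  nth_rewrite 1 [this]
  rw [max_div_div_right (Nat.cast_nonneg n)]

theorem tendsto_add_one {x : ℕ → ℕ} {ξ : ℝ}
    (hx : Tendsto (fun n : ℕ => (x n : ℝ) / (n : ℝ)) atTop (𝓝 ξ)) :
    Tendsto (fun n : ℕ => ((x n + 1 : ℕ) : ℝ) / (n : ℝ)) atTop (𝓝 ξ) := by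
  apply tendsto_close 1 hx
  intro n
  push_cast
  simp

/-- The value of the limit of `φ(δ)/n^k`. -/
noncomputable def Phi (k : ℕ) (β δ : ℝ) : ℝ :=
  (max (β - δ) 0) ^ k / k.factorial - β ^ k / k.factorial +
    δ * (β ^ (k - 1) / (k - 1).factorial)

theorem tendsto_mul_choose {d m : ℕ → ℕ} {δ μ : ℝ}
    (hd : Tendsto (fun n : ℕ => (d n : ℝ) / (n : ℝ)) atTop (𝓝 δ))
    (hm : Tendsto (fun n : ℕ => (m n : ℝ) / (n : ℝ)) atTop (𝓝 μ)) (k : ℕ) (hk : 1 ≤ k) :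
    Tendsto (fun n : ℕ => ((d n : ℝ) * ((m n).choose (k - 1) : ℝ)) / (n : ℝ) ^ k) atTop
      (𝓝 (δ * (μ ^ (k - 1) / (k - 1).factorial))) := by
  have h := hd.mul (tendsto_choose hm (k - 1))
  refine h.congr fun n => ?_
  obtain ⟨j, rfl⟩ := Nat.exists_eq_add_of_le' hk
  rw [Nat.add_sub_cancel, div_mul_div_comm, pow_succ']

theorem tendsto_phi {d b : ℕ → ℕ} {δ β : ℝ}
    (hd : Tendsto (fun n : ℕ => (d n : ℝ) / (n : ℝ)) atTop (𝓝 δ))
    (hb : Tendsto (fun n : ℕ => (b n : ℝ) / (n : ℝ)) atTop (𝓝 β)) (k : ℕ) (hk : 1 ≤ k) :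
    Tendsto (fun n : ℕ => phi k (b n) (d n) / (n : ℝ) ^ k) atTop (𝓝 (Phi k β δ)) := by
  have h1 := tendsto_choose (tendsto_add_one (tendsto_sub hb hd)) k
  have h2 := tendsto_choose (tendsto_add_one hb) k
  have h3 := tendsto_mul_choose hd hb k hk
  refine ((h1.sub h2).add h3).congr fun n => ?_
  rw [phi, ← sub_div, ← add_div]

theorem tendsto_Wd_ge {l b : ℕ → ℕ} {lam β : ℝ}
    (hl : Tendsto (fun n : ℕ => (l n : ℝ) / (n : ℝ)) atTop (𝓝 lam))
    (hb : Tendsto (fun n : ℕ => (b n : ℝ) / (n : ℝ)) atTop (𝓝 β)) (k : ℕ) (hk : 1 ≤ k)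
    (h : ∀ᶠ n in atTop, b n ≤ l n) (hlb : β ≤ lam) :
    Tendsto (fun n : ℕ => (Wd k (b n) (l n) : ℝ) / (n : ℝ) ^ k) atTop
      (𝓝 (β ^ k / k.factorial + (lam - β) * (β ^ (k - 1) / (k - 1).factorial))) := by
  have h2 := tendsto_choose (tendsto_add_one hb) k
  have h3 := tendsto_mul_choose (tendsto_sub hl hb) hb k hk
  rw [max_eq_left (by linarith)] at h3
  refine (h2.add h3).congr' ?_
  filter_upwards [h] with n hn
  rw [Wd_of_ge hn]
  push_cast
  rw [add_div]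

theorem tendsto_inv_pow (k : ℕ) (hk : 1 ≤ k) (c : ℝ) :
    Tendsto (fun n : ℕ => c / (n : ℝ) ^ k) atTop (𝓝 0) := by
  have h : Tendsto (fun n : ℕ => (n : ℝ) ^ k) atTop atTop :=
    (tendsto_pow_atTop (by omega)).comp tendsto_natCast_atTop_atTop
  exact h.const_div_atTop c

theorem tendsto_upper {b : ℕ → ℕ} {β r : ℝ} {q : ℕ}
    (hb : Tendsto (fun n : ℕ => (b n : ℝ) / (n : ℝ)) atTop (𝓝 β)) (k : ℕ) (hk : 1 ≤ k)
    (hq : 1 ≤ q) (hr : 1 = q * β + r) (hr0 : 0 ≤ r) :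
    Tendsto (fun n : ℕ => (((b n + 1).choose k : ℝ) + Mx k (b n) q (n - q * b n) + 1) /
      (n : ℝ) ^ k) atTop
      (𝓝 (β ^ k / k.factorial + max (((q : ℝ) - 1) * Phi k β β / q)
        ((((q : ℝ) - 1) * Phi k β β + Phi k β r) / (q + 1)) + 0)) := by
  have hid : Tendsto (fun n : ℕ => (n : ℝ) / (n : ℝ)) atTop (𝓝 1) := by
    refine tendsto_const_nhds.congr' ?_
    filter_upwards [eventually_gt_atTop 0] with n hn
    rw [div_self (by exact_mod_cast hn.ne')]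
  have hqb : Tendsto (fun n : ℕ => ((q * b n : ℕ) : ℝ) / (n : ℝ)) atTop (𝓝 (q * β)) := by
    refine (hb.const_mul (q : ℝ)).congr fun n => ?_
    push_cast
    ring
  have hrr : Tendsto (fun n : ℕ => ((n - q * b n : ℕ) : ℝ) / (n : ℝ)) atTop (𝓝 r) := by
    have := tendsto_sub hid hqb
    rwa [max_eq_left (by linarith), show 1 - q * β = r by linarith] at this
  have h1 := tendsto_phi hb hb k hk
  have h2 := tendsto_phi hrr hb k hk
  have h3 := tendsto_choose (tendsto_add_one hb) k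
  have h4 := ((h1.const_mul ((q : ℝ) - 1)).div_const (q : ℝ)).max
    (((h1.const_mul ((q : ℝ) - 1)).add h2).div_const ((q : ℝ) + 1))
  refine ((h3.add h4).add (tendsto_inv_pow k hk 1)).congr fun n => ?_
  have hn : (0 : ℝ) ≤ (n : ℝ) ^ k := by positivity
  have e : ∀ x A B c : ℝ, 0 ≤ c → (x + max A B + 1) / c = x / c + max (A / c) (B / c) + 1 / c := by
    intro x A B c hc
    rw [add_div, add_div, max_div_div_right hc]
  rw [Mx, e _ _ _ _ hn]
  congr 3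
  · ring
  · ring

end H68.BW
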